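import Pool.Agent.W2helper9.SD.Stm

/-!
# Piece D9 of helper9's project SD (MP_d071c2_nt)
-/

set_option autoImplicit false

open MvPolynomial

namespace Pool.Agent.W2helper15.SD

open Pool.Agent.W2helper9.SD

/-- the translation `z ↦ z + α y` -/
def TA (R : Type) [CommRing R] (α : R) (a : Fin 9 → R) : Fin 9 → R :=
  ![a 0 + a 1 * α + α ^ 2, a 1 + 2 * α, a 2, a 3 + a 4 * α, a 4, a 5 + α, a 6 + a 7 * α, a 7, a 8]

/-- the translation `w ↦ w + β y` -/
def TB (R : Type) [CommRing R] (β : R) (a : Fin 9 → R) : Fin 9 → R :=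
  ![a 0 + a 2 * β, a 1, a 2, a 3 + a 5 * β, a 4 + β, a 5, a 6 + a 8 * β + β ^ 2, a 7, a 8 + 2 * β]

/-- the shear `z ↦ z + τ w` -/
def TS (R : Type) [CommRing R] (τ : R) (a : Fin 9 → R) : Fin 9 → R :=
  ![a 0 - 2 * τ * a 3 + τ ^ 2 * a 6, a 1 - 2 * τ * a 4 + τ ^ 2 * a 7,
    a 2 + τ * (a 1 - 2 * a 5) + τ ^ 2 * (a 8 - 2 * a 4) + τ ^ 3 * a 7,
    a 3 - τ * a 6, a 4 - τ * a 7, a 5 + τ * (a 4 - a 8) - τ ^ 2 * a 7, a 6, a 7, a 8 + τ * a 7]

theorem TA_map (R S : Type) [CommRing R] [CommRing S] (φ : R →+* S) (t : R) (a : Fin 9 → R)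
    (i : Fin 9) : φ (TA R t a i) = TA S (φ t) (fun i => φ (a i)) i := by
  fin_cases i <;> simp [TA, map_ofNat]

theorem TB_map (R S : Type) [CommRing R] [CommRing S] (φ : R →+* S) (t : R) (a : Fin 9 → R)
    (i : Fin 9) : φ (TB R t a i) = TB S (φ t) (fun i => φ (a i)) i := by
  fin_cases i <;> simp [TB, map_ofNat]

theorem TS_map (R S : Type) [CommRing R] [CommRing S] (φ : R →+* S) (t : R) (a : Fin 9 → R)
    (i : Fin 9) : φ (TS R t a i) = TS S (φ t) (fun i => φ (a i)) i := by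
  fin_cases i <;> simp [TS, map_ofNat]

theorem TA_cop (t : Z2) (a : Fin 9 → Z2) (h : Cop9 a) : Cop9 (TA Z2 t a) := by
  intro κ _ _ φ y z w h1 h2 h3
  simp only [TA_map] at h1 h2 h3
  simp only [TA] at h1 h2 h3
  simp at h1 h2 h3
  obtain ⟨e1, e2, e3⟩ := h κ φ y (z + φ t * y) w (by linear_combination h1)
    (by linear_combination h2) (by linear_combination h3)
  refine ⟨e1, ?_, e3⟩
  rw [e1, mul_zero, add_zero] at e2
  exact e2

theorem TB_cop (t : Z2) (a : Fin 9 → Z2) (h : Cop9 a) : Cop9 (TB Z2 t a) := by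
  intro κ _ _ φ y z w h1 h2 h3
  simp only [TB_map] at h1 h2 h3
  simp only [TB] at h1 h2 h3
  simp at h1 h2 h3
  obtain ⟨e1, e2, e3⟩ := h κ φ y z (w + φ t * y) (by linear_combination h1)
    (by linear_combination h2) (by linear_combination h3)
  refine ⟨e1, e2, ?_⟩
  rw [e1, mul_zero, add_zero] at e3
  exact e3

theorem TS_cop (t : Z2) (a : Fin 9 → Z2) (h : Cop9 a) : Cop9 (TS Z2 t a) := by
  intro κ _ _ φ y z w h1 h2 h3
  simp only [TS_map] at h1 h2 h3
  simp only [TS] at h1 h2 h3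
  simp at h1 h2 h3
  obtain ⟨e1, e2, e3⟩ := h κ φ y (z + φ t * w) w
    (by linear_combination h1 + 2 * φ t * h2 + (φ t) ^ 2 * h3)
    (by linear_combination h2 + φ t * h3) (by linear_combination h3)
  refine ⟨e1, ?_, e3⟩
  rw [e3, mul_zero, add_zero] at e2
  exact e2

/-- the Zariski closure -/
def Zc : Set (Fin 9 → Kb) :=
  {x | ∀ p : MvPolynomial (Fin 9) Kb, (∀ a, Cop9 a → eval (fun i => io (a i)) p = 0) →
    eval x p = 0}

theorem ev {n : ℕ} {B : Type} [CommRing B] [Algebra Kb B] (φ : B →+* Kb)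
    (hφ : ∀ c, φ (algebraMap Kb B c) = c) (g : Fin n → B) (p : MvPolynomial (Fin n) Kb) :
    φ (aeval g p) = eval (fun i => φ (g i)) p := by
  induction p using MvPolynomial.induction_on with
  | C a => simp [hφ]
  | add p q hp hq => simp [hp, hq]
  | mul_X p i hp => simp [hp]

theorem evM {n m : ℕ} (y : Fin m → Kb) (g : Fin n → MvPolynomial (Fin m) Kb)
    (p : MvPolynomial (Fin n) Kb) :
    eval y (aeval g p) = eval (fun i => eval y (g i)) p :=
  ev (eval y) (fun c => by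
    rw [MvPolynomial.algebraMap_eq, eval_C]) g p

theorem evP {n : ℕ} (s : Kb) (g : Fin n → Polynomial Kb) (p : MvPolynomial (Fin n) Kb) :
    (aeval g p : Polynomial Kb).eval s = eval (fun i => (g i).eval s) p :=
  ev (Polynomial.evalRingHom s) (fun c => by
    rw [Polynomial.algebraMap_eq, Polynomial.coe_evalRingHom, Polynomial.eval_C]) g p

theorem inv (T : ∀ (R : Type) [CommRing R], R → (Fin 9 → R) → (Fin 9 → R))
    (hT : ∀ (R S : Type) [CommRing R] [CommRing S] (φ : R →+* S) (t : R) (a : Fin 9 → R)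
      (i : Fin 9), φ (T R t a i) = T S (φ t) (fun i => φ (a i)) i)
    (hE : ∀ t a, Cop9 a → Cop9 (T Z2 t a)) (x : Fin 9 → Kb) (hx : x ∈ Zc) (t : Kb) :
    T Kb t x ∈ Zc := by
  intro p hp
  -- integral parameters
  have h1 : ∀ s : Z2, eval (T Kb (io s) x) p = 0 := by
    intro s
    have e : ∀ y : Fin 9 → Kb, eval y (aeval (T (MvPolynomial (Fin 9) Kb) (C (io s)) X) p)
        = eval (T Kb (io s) y) p := by
      intro y
      rw [evM]
      congr 2
      funext i
      rw [hT _ _ (eval y)]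
      simp
    rw [← e]
    apply hx
    intro a ha
    rw [e]
    have h2 := hp _ (hE s a ha)
    have e2 : (fun i => io (T Z2 s a i)) = T Kb (io s) (fun i => io (a i)) := by
      funext i
      exact hT _ _ io s a i
    rwa [e2] at h2
  have e : ∀ s : Kb, (aeval (T (Polynomial Kb) Polynomial.X (fun i => Polynomial.C (x i))) p).eval s
      = eval (T Kb s x) p := by
    intro s
    rw [evP]
    congr 2
    funext i
    have := hT _ _ (Polynomial.evalRingHom s) Polynomial.X (fun i => Polynomial.C (x i)) i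
    simpa using this
  have hq : aeval (T (Polynomial Kb) Polynomial.X (fun i => Polynomial.C (x i))) p = 0 := by
    apply Polynomial.eq_zero_of_infinite_isRoot
    apply (Set.infinite_range_of_injective (Nat.cast_injective (R := Kb))).mono
    rintro _ ⟨n, rfl⟩
    show Polynomial.eval _ _ = 0
    rw [e]
    have := h1 (n : Z2)
    rwa [map_natCast] at this
  rw [← e, hq, Polynomial.eval_zero]

/-- the points of D6 -/
theorem base (h6 : P_D6) (x : Fin 9 → Kb) (h3 : x 3 = 0) (h4 : x 4 = 0) (h5 : x 5 = 0) :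
    x ∈ Zc := by
  intro p hp
  have h := h6 (aeval (![X 0, X 1, X 2, 0, 0, 0, X 3, X 4, X 5] :
    Fin 9 → MvPolynomial (Fin 6) Kb) p) ?_
  · have e := evM (![x 0, x 1, x 2, x 6, x 7, x 8]) (![X 0, X 1, X 2, 0, 0, 0, X 3, X 4, X 5] :
      Fin 9 → MvPolynomial (Fin 6) Kb) p
    rw [h, map_zero] at e
    rw [e]
    congr 2
    funext i
    fin_cases i <;> simp [h3, h4, h5]
  · intro a ha
    rw [evM]
    have h7 := hp _ ha
    rw [← h7]
    congr 2
    funext i
    fin_cases i <;> simp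

/-- the reduction of a general point -/
theorem reach (x : Fin 9 → Kb) (h7 : x 7 ≠ 0) : ∃ τ α β : Kb,
    (TB Kb β (TA Kb α (TS Kb τ x))) 3 = 0 ∧ (TB Kb β (TA Kb α (TS Kb τ x))) 4 = 0 ∧
    (TB Kb β (TA Kb α (TS Kb τ x))) 5 = 0 := by
  -- the cubic equation
  have hroot : ∃ τ : Kb, (x 3 - τ * x 6) - (x 4 - τ * x 7) * (x 5 + τ * (x 4 - x 8) - τ ^ 2 * x 7) = 0 := by
    obtain ⟨τ, hτ⟩ := IsAlgClosed.exists_root
      (Polynomial.C (- (x 7 ^ 2)) * Polynomial.X ^ 3
        + Polynomial.C (x 4 * x 7 + x 7 * (x 4 - x 8)) * Polynomial.X ^ 2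
        + Polynomial.C (- x 6 - x 4 * (x 4 - x 8) + x 7 * x 5) * Polynomial.X
        + Polynomial.C (x 3 - x 4 * x 5)) (by
        rw [Polynomial.degree_cubic (neg_ne_zero.2 (pow_ne_zero 2 h7))]
        decide)
    refine ⟨τ, ?_⟩
    rw [Polynomial.IsRoot.def] at hτ
    simp only [Polynomial.eval_add, Polynomial.eval_mul, Polynomial.eval_C, Polynomial.eval_pow,
      Polynomial.eval_X] at hτ
    linear_combination hτ
  obtain ⟨τ, hτ⟩ := hroot
  refine ⟨τ, -(TS Kb τ x 5), -(TS Kb τ x 4), ?_, ?_, ?_⟩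
  · simp [TA, TB, TS]
    linear_combination hτ
  · simp [TA, TB, TS]
  · simp [TA, TB, TS]

theorem TA_inv (α : Kb) (x : Fin 9 → Kb) : TA Kb (-α) (TA Kb α x) = x := by
  funext i
  fin_cases i <;> simp [TA] <;> ring

theorem TB_inv (α : Kb) (x : Fin 9 → Kb) : TB Kb (-α) (TB Kb α x) = x := by
  funext i
  fin_cases i <;> simp [TB] <;> ring

theorem TS_inv (α : Kb) (x : Fin 9 → Kb) : TS Kb (-α) (TS Kb α x) = x := by
  funext i
  fin_cases i <;> simp [TS] <;> ring

/-- **Piece D9.** -/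
theorem p_D9 : P_D9 := by
  intro h6 p hp
  have hZ : ∀ x : Fin 9 → Kb, x 7 ≠ 0 → x ∈ Zc := by
    intro x hx
    obtain ⟨τ, α, β, h3, h4, h5⟩ := reach x hx
    have h := base h6 _ h3 h4 h5
    have i1 := inv TB TB_map TB_cop _ h (-β)
    rw [TB_inv] at i1
    have i2 := inv TA TA_map TA_cop _ i1 (-α)
    rw [TA_inv] at i2
    have i3 := inv TS TS_map TS_cop _ i2 (-τ)
    rwa [TS_inv] at i3
  have hp7 : p * X 7 = 0 := by
    apply MvPolynomial.funext
    intro x
    rw [map_mul, map_zero, eval_X]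
    by_cases hx : x 7 = 0
    · rw [hx, mul_zero]
    · rw [hZ x hx p hp, zero_mul]
  rcases mul_eq_zero.1 hp7 with h | h
  · exact h
  · exact absurd h (MvPolynomial.X_ne_zero 7)

end Pool.Agent.W2helper15.SD
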